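import Mathlib

set_option autoImplicit false

namespace Pool.Agent.MP_ece343_co

open Finset

/-- the sign attached to a Boolean -/
def sgn (b : Bool) : ℝ := if b then 1 else -1

lemma logistic_step (u h : ℝ) (hh : 0 < h) :
    (1 - Real.exp (-h)) * Real.exp (-u ^ 2 / 2) ≤
      4 * (1 / (1 + Real.exp (-(u + h))) - 1 / (1 + Real.exp (-u))) := by
  have hA : 0 < Real.exp (-u) := Real.exp_pos _
  have hB : 0 < Real.exp (-h) := Real.exp_pos _
  have hB1 : Real.exp (-h) ≤ 1 := by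
    rw [Real.exp_le_one_iff]; linarith
  have hc := Real.cosh_le_exp_half_sq u
  rw [Real.cosh_eq] at hc
  have hsplit : Real.exp (-(u + h)) = Real.exp (-u) * Real.exp (-h) := by
    rw [← Real.exp_add]; congr 1; ring
  have hG : 0 < Real.exp (-u ^ 2 / 2) := Real.exp_pos _
  have hG1 : Real.exp (-u ^ 2 / 2) ≤ 1 := by
    rw [Real.exp_le_one_iff]; nlinarith [sq_nonneg u]
  have hGinv : Real.exp (-u ^ 2 / 2) * Real.exp (u ^ 2 / 2) = 1 := by
    rw [← Real.exp_add]; simp [neg_div]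
  have hAinv : Real.exp u * Real.exp (-u) = 1 := by
    rw [← Real.exp_add]; simp
  set A := Real.exp (-u) with hAdef
  set B := Real.exp (-h) with hBdef
  set G := Real.exp (-u ^ 2 / 2) with hGdef
  set A' := Real.exp u with hA'def
  set G' := Real.exp (u ^ 2 / 2) with hG'def
  have h1 : G * (A' + A) ≤ 2 := by nlinarith
  have h2 : G * (1 + A) ^ 2 ≤ 4 * A := by
    have : G * (1 + A) ^ 2 = A * (G * (A' + A)) + 2 * A * G := by
      have : (1 + A) ^ 2 = A * (A' + A) + 2 * A := by nlinarith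
      rw [this]; ring
    rw [this]; nlinarith
  rw [hsplit]
  have hD1 : 0 < 1 + A * B := by positivity
  have hD2 : 0 < 1 + A := by positivity
  have h3 : 4 * (1 / (1 + A * B) - 1 / (1 + A)) = (1 - B) * (4 * A / ((1 + A * B) * (1 + A))) := by
    field_simp; ring
  rw [h3]
  apply mul_le_mul_of_nonneg_left _ (by linarith)
  rw [le_div_iff₀ (by positivity)]
  have h4 : (1 + A * B) * (1 + A) ≤ (1 + A) ^ 2 := by nlinarith [mul_nonneg hA.le (sub_nonneg.2 hB1)]
  nlinarith

lemma gauss_tail_sum (h c : ℝ) (hh : 0 < h) (N : ℕ) :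
    ∑ k ∈ range N, Real.exp (-(h * k - c) ^ 2 / 2) ≤ 4 * (1 + 1 / h) := by
  have key : (1 - Real.exp (-h)) * ∑ k ∈ range N, Real.exp (-(h * k - c) ^ 2 / 2) ≤
      4 * (1 / (1 + Real.exp (-(h * N - c))) - 1 / (1 + Real.exp (-(h * (0 : ℕ) - c)))) := by
    induction N with
    | zero => simp
    | succ N ih =>
      rw [sum_range_succ, mul_add]
      have := logistic_step (h * N - c) h hh
      have e1 : h * N - c + h = h * ((N + 1 : ℕ) : ℝ) - c := by push_cast; ring
      rw [e1] at this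
      linarith
  have h1 : 1 / (1 + Real.exp (-(h * N - c))) ≤ 1 := by
    rw [div_le_one (by positivity)]; linarith [Real.exp_pos (-(h * N - c))]
  have h2 : 0 ≤ 1 / (1 + Real.exp (-(h * (0 : ℕ) - c))) := by positivity
  have h3 : Real.exp (-h) ≤ 1 / (1 + h) := by
    rw [le_div_iff₀ (by positivity), Real.exp_neg, inv_mul_le_iff₀ (Real.exp_pos _)]
    linarith [Real.add_one_le_exp h]
  have h4 : h / (1 + h) ≤ 1 - Real.exp (-h) := by
    have : h / (1 + h) = 1 - 1 / (1 + h) := by field_simp; ring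
    linarith
  have hS : 0 ≤ ∑ k ∈ range N, Real.exp (-(h * k - c) ^ 2 / 2) := by positivity
  set S := ∑ k ∈ range N, Real.exp (-(h * k - c) ^ 2 / 2)
  have h5 : h / (1 + h) * S ≤ 4 := by nlinarith
  have h6 : S = (1 + 1 / h) * (h / (1 + h) * S) := by field_simp; ring
  rw [h6, mul_comm 4]
  exact mul_le_mul_of_nonneg_left h5 (by positivity)

lemma centralBinom_sq_le (h : ℕ) : (Nat.centralBinom h) ^ 2 * (2 * h + 1) ≤ 16 ^ h := by
  induction h with
  | zero => simp
  | succ h ih =>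
    have e := Nat.succ_mul_centralBinom_succ h
    have hpos : 0 < (h + 1) ^ 2 := by positivity
    refine Nat.le_of_mul_le_mul_left ?_ hpos
    have : (h + 1) ^ 2 * ((Nat.centralBinom (h + 1)) ^ 2 * (2 * (h + 1) + 1)) =
        ((h + 1) * Nat.centralBinom (h + 1)) ^ 2 * (2 * h + 3) := by ring
    rw [this, e]
    have : (2 * (2 * h + 1) * Nat.centralBinom h) ^ 2 * (2 * h + 3) =
        (4 * (2 * h + 1) * (2 * h + 3)) * ((Nat.centralBinom h) ^ 2 * (2 * h + 1)) := by ring
    rw [this, pow_succ]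
    calc (4 * (2 * h + 1) * (2 * h + 3)) * ((Nat.centralBinom h) ^ 2 * (2 * h + 1))
        ≤ (16 * (h + 1) ^ 2) * 16 ^ h := Nat.mul_le_mul (by nlinarith) ih
      _ = _ := by ring

lemma choose_le_div_sqrt (h k : ℕ) :
    ((2 * h).choose k : ℝ) ≤ 2 ^ (2 * h) / √(2 * h + 1) := by
  have h1 : (2 * h).choose k ≤ Nat.centralBinom h := Nat.choose_le_centralBinom k h
  have h2 := centralBinom_sq_le h
  have h3 : ((Nat.centralBinom h : ℝ)) ^ 2 * (2 * h + 1) ≤ 16 ^ h := by exact_mod_cast h2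
  have hs : 0 < √(2 * (h : ℝ) + 1) := Real.sqrt_pos.2 (by positivity)
  rw [le_div_iff₀ hs]
  have h4 : (Nat.centralBinom h : ℝ) * √(2 * h + 1) ≤ 2 ^ (2 * h) := by
    apply le_of_sq_le_sq _ (by positivity) |> fun t => t
    rw [mul_pow, Real.sq_sqrt (by positivity)]
    calc _ ≤ (16 : ℝ) ^ h := h3
      _ = _ := by rw [← pow_mul, mul_comm (2 * h) 2, ← mul_assoc, pow_mul]; norm_num
  calc _ ≤ (Nat.centralBinom h : ℝ) * √(2 * h + 1) := by
        gcongr
    _ ≤ _ := h4

lemma sum_sign_eq (m : ℕ) (f : ℝ → ℝ) :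
    ∑ x : Fin m → Bool, f (∑ l, sgn (x l)) =
      ∑ k ∈ range (m + 1), (m.choose k : ℝ) * f (2 * k - m) := by
  classical
  have h1 : ∑ x : Fin m → Bool, f (∑ l, sgn (x l)) =
      ∑ t ∈ (univ : Finset (Fin m)).powerset, f (2 * (t.card : ℝ) - m) := by
    refine Finset.sum_nbij' (fun x => univ.filter (fun l => x l = true))
      (fun t => fun l => decide (l ∈ t)) ?_ ?_ ?_ ?_ ?_
    · intro x _; simp
    · intro t _; simp
    · intro x _; ext l; simp
    · intro t _; ext l; simp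
    · intro x _
      congr 1
      have : ∀ l, sgn (x l) = 2 * (if x l = true then (1 : ℝ) else 0) - 1 := by
        intro l; unfold sgn; split_ifs <;> norm_num
      simp_rw [this, sum_sub_distrib, ← mul_sum, sum_boole]
      simp
  rw [h1, Finset.sum_powerset_apply_card (fun k => f (2 * (k : ℝ) - m))]
  simp

/-- one-dimensional anticoncentration -/
lemma one_dim (h : ℕ) (s σ c : ℝ) (hs : 0 < s) (hσ : s ≤ σ) :
    ∑ x : Fin (2 * h) → Bool, Real.exp (-((∑ l, sgn (x l)) * σ - c) ^ 2 / 2) ≤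
      2 ^ (2 * h) * (4 * (1 + 1 / s) / √(2 * h + 1)) := by
  rw [sum_sign_eq (2 * h) (fun w => Real.exp (-(w * σ - c) ^ 2 / 2))]
  have hσ0 : 0 < σ := lt_of_lt_of_le hs hσ
  calc _ ≤ ∑ k ∈ range (2 * h + 1), (2 ^ (2 * h) / √(2 * h + 1)) *
          Real.exp (-((2 * σ) * k - (c + (2 * h : ℕ) * σ)) ^ 2 / 2) := by
        refine sum_le_sum fun k _ => ?_
        have : (2 * (k : ℝ) - (2 * h : ℕ)) * σ - c = (2 * σ) * k - (c + (2 * h : ℕ) * σ) := by ring
        rw [this]
        exact mul_le_mul_of_nonneg_right (choose_le_div_sqrt h k) (Real.exp_pos _).le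
    _ ≤ (2 ^ (2 * h) / √(2 * h + 1)) * (4 * (1 + 1 / (2 * σ))) := by
        rw [← mul_sum]
        exact mul_le_mul_of_nonneg_left (gauss_tail_sum _ _ (by positivity) _) (by positivity)
    _ ≤ (2 ^ (2 * h) / √(2 * h + 1)) * (4 * (1 + 1 / s)) := by
        gcongr
        linarith
    _ = _ := by ring

end Pool.Agent.MP_ece343_co
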