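import Mathlib
import Pool.Agent.MP_ece343_co.OneDim

set_option autoImplicit false

namespace Pool.Agent.MP_ece343_co

open Finset MeasureTheory ProbabilityTheory
open scoped RealInnerProductSpace

variable {E : Type*} [NormedAddCommGroup E] [InnerProductSpace ℝ E] [FiniteDimensional ℝ E]
  [MeasurableSpace E] [BorelSpace E]

lemma gauss_eq_integral (w : E) :
    Real.exp (-‖w‖ ^ 2 / 2) = ∫ ξ, Real.cos ⟪ξ, w⟫ ∂(stdGaussian E) := by
  have h := charFun_stdGaussian w
  rw [charFun_apply] at h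
  have hint : Integrable (fun ξ : E => Complex.exp (⟪ξ, w⟫ * Complex.I)) (stdGaussian E) := by
    refine Integrable.of_bound (by fun_prop) 1 (Filter.Eventually.of_forall fun ξ => ?_)
    rw [Complex.norm_exp_ofReal_mul_I]
  have h2 := congrArg Complex.re h
  have h3 := integral_re hint
  simp only [RCLike.re_to_complex] at h3
  rw [← h3] at h2
  simp only [Complex.exp_ofReal_mul_I_re] at h2
  rw [h2]
  have : (-(‖w‖ : ℂ) ^ 2 / 2) = ((-‖w‖ ^ 2 / 2 : ℝ) : ℂ) := by push_cast; ring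
  rw [this, Complex.exp_ofReal_re]

lemma sum_sign_cos {ι : Type*} [Fintype ι] [DecidableEq ι] (θ : ι → ℝ) (φ : ℝ) :
    ∑ x : ι → Bool, Real.cos (∑ i, sgn (x i) * θ i - φ) =
      2 ^ Fintype.card ι * (Real.cos φ * ∏ i, Real.cos (θ i)) := by
  have h1 : ∑ x : ι → Bool, Complex.exp ((∑ i, sgn (x i) * θ i - φ : ℝ) * Complex.I) =
      Complex.exp ((-φ : ℝ) * Complex.I) * ((2 ^ Fintype.card ι * ∏ i, Real.cos (θ i) : ℝ) : ℂ) := by
    have h2 : ∀ x : ι → Bool, Complex.exp ((∑ i, sgn (x i) * θ i - φ : ℝ) * Complex.I) =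
        Complex.exp ((-φ : ℝ) * Complex.I) *
          ∏ i, Complex.exp ((sgn (x i) * θ i : ℝ) * Complex.I) := by
      intro x
      rw [← Complex.exp_sum, ← Complex.exp_add]
      congr 1
      push_cast
      rw [← sum_mul]; ring
    simp_rw [h2]
    rw [← mul_sum]
    congr 1
    have h3 := Finset.prod_univ_sum (fun _ : ι => (univ : Finset Bool))
      (fun i b => Complex.exp ((sgn b * θ i : ℝ) * Complex.I))
    rw [Fintype.piFinset_univ] at h3
    rw [← h3]
    have h4 : ∀ i, ∑ b : Bool, Complex.exp ((sgn b * θ i : ℝ) * Complex.I) =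
        2 * (Real.cos (θ i) : ℂ) := by
      intro i
      rw [Fintype.sum_bool]
      simp only [sgn, if_true, Bool.false_eq_true, if_false, one_mul, neg_mul]
      push_cast
      rw [Complex.two_cos]
    simp_rw [h4]
    rw [prod_mul_distrib]
    simp
  have h5 := congrArg Complex.re h1
  rw [Complex.re_sum] at h5
  simp only [Complex.exp_ofReal_mul_I_re, Complex.re_mul_ofReal, Real.cos_neg] at h5
  rw [h5]; ring

lemma integrable_bdd (f : E → ℝ) (hf : Continuous f) (hb : ∀ ξ, |f ξ| ≤ 1) :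
    Integrable f (stdGaussian E) :=
  Integrable.of_bound hf.aestronglyMeasurable 1 (Filter.Eventually.of_forall hb)

lemma sum_gauss_eq {ι : Type*} [Fintype ι] [DecidableEq ι] (a : ι → E) (y : E) :
    ∑ x : ι → Bool, Real.exp (-‖∑ i, sgn (x i) • a i - y‖ ^ 2 / 2) =
      2 ^ Fintype.card ι *
        ∫ ξ, Real.cos ⟪ξ, y⟫ * ∏ i, Real.cos ⟪ξ, a i⟫ ∂(stdGaussian E) := by
  simp_rw [gauss_eq_integral]
  rw [← integral_finsetSum, ← integral_const_mul]
  · congr 1
    ext ξ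
    rw [← sum_sign_cos]
    refine sum_congr rfl fun x _ => ?_
    rw [inner_sub_right, inner_sum]
    simp_rw [real_inner_smul_right]
  · intro x _
    exact integrable_bdd _ (by fun_prop) fun ξ => Real.abs_cos_le_one _

/-- triangular system: unit normals `e j` orthogonal to the later vectors -/
def Tri (s : ℝ) {D : ℕ} (v : Fin D → E) : Prop :=
  ∃ e : Fin D → E, (∀ j, ‖e j‖ = 1) ∧ (∀ j, s ≤ ⟪v j, e j⟫) ∧ ∀ i j, j < i → ⟪v i, e j⟫ = 0

omit [FiniteDimensional ℝ E] [MeasurableSpace E] [BorelSpace E] in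
lemma norm_sq_split (z e : E) (he : ‖e‖ = 1) :
    ‖z‖ ^ 2 = ⟪z, e⟫ ^ 2 + ‖z - ⟪z, e⟫ • e‖ ^ 2 := by
  rw [norm_sub_sq_real, real_inner_smul_right, norm_smul, he]
  simp only [Real.norm_eq_abs, mul_one, sq_abs]
  ring

omit [FiniteDimensional ℝ E] [MeasurableSpace E] [BorelSpace E] in
lemma tri_bound (h : ℕ) (s : ℝ) (hs : 0 < s) (D : ℕ) (v : Fin D → E) (hv : Tri s v) (y : E) :
    ∑ x : Fin D → Fin (2 * h) → Bool,
        Real.exp (-‖∑ j, (∑ l, sgn (x j l)) • v j - y‖ ^ 2 / 2) ≤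
      (2 ^ (2 * h) * (4 * (1 + 1 / s) / √(2 * h + 1))) ^ D := by
  induction D generalizing y with
  | zero =>
    simp only [univ_unique, univ_eq_empty, sum_empty, zero_sub, norm_neg, sum_singleton, pow_zero]
    rw [Real.exp_le_one_iff]
    nlinarith [sq_nonneg ‖y‖]
  | succ D ih =>
    obtain ⟨e, he1, he2, he3⟩ := hv
    have hv' : Tri s (fun j : Fin D => v j.succ) :=
      ⟨fun j => e j.succ, fun j => he1 _, fun j => he2 _,
        fun i j hij => he3 _ _ (Fin.succ_lt_succ_iff.2 hij)⟩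
    rw [← (Fin.consEquiv (fun _ : Fin (D + 1) => Fin (2 * h) → Bool)).sum_comp,
      Fintype.sum_prod_type]
    set β := (2 : ℝ) ^ (2 * h) * (4 * (1 + 1 / s) / √(2 * h + 1)) with hβ
    have hβ0 : 0 ≤ β := by positivity
    have step : ∀ x0 : Fin (2 * h) → Bool,
        ∑ x : Fin D → Fin (2 * h) → Bool, Real.exp (-‖∑ j, (∑ l, sgn
          ((Fin.consEquiv (fun _ : Fin (D + 1) => Fin (2 * h) → Bool)) (x0, x) j l)) • v j - y‖ ^ 2 / 2)
          ≤ Real.exp (-((∑ l, sgn (x0 l)) * ⟪v 0, e 0⟫ - ⟪y, e 0⟫) ^ 2 / 2) * β ^ D := by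
      intro x0
      set w := ∑ l, sgn (x0 l) with hw
      set t := w * ⟪v 0, e 0⟫ - ⟪y, e 0⟫ with ht
      have := ih (fun j => v j.succ) hv' (y - w • v 0 + t • e 0)
      refine le_trans (le_of_eq ?_) (mul_le_mul_of_nonneg_left this (Real.exp_pos _).le)
      rw [mul_sum]
      refine sum_congr rfl fun x _ => ?_
      rw [← Real.exp_add]
      congr 1
      rw [Fin.sum_univ_succ]
      simp only [Fin.consEquiv_apply, Fin.cons_zero, Fin.cons_succ]
      rw [← hw]
      set u := ∑ j : Fin D, (∑ l, sgn (x j l)) • v j.succ with hu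
      have hu0 : ⟪u, e 0⟫ = 0 := by
        rw [hu, sum_inner]
        refine sum_eq_zero fun j _ => ?_
        rw [real_inner_smul_left, he3 _ _ (Fin.succ_pos j), mul_zero]
      have hin : ⟪w • v 0 + u - y, e 0⟫ = t := by
        rw [inner_sub_left, inner_add_left, real_inner_smul_left, hu0, ht]; ring
      rw [norm_sq_split (w • v 0 + u - y) (e 0) (he1 0), hin]
      have : w • v 0 + u - y - t • e 0 = u - (y - w • v 0 + t • e 0) := by abel
      rw [this]; ring
    calc _ ≤ ∑ x0 : Fin (2 * h) → Bool,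
            Real.exp (-((∑ l, sgn (x0 l)) * ⟪v 0, e 0⟫ - ⟪y, e 0⟫) ^ 2 / 2) * β ^ D :=
          sum_le_sum fun x0 _ => step x0
      _ ≤ β * β ^ D := by
          rw [← sum_mul]
          exact mul_le_mul_of_nonneg_right (one_dim h s _ _ hs (he2 0)) (by positivity)
      _ = _ := by ring

lemma tri_integral (h : ℕ) (s : ℝ) (hs : 0 < s) (D : ℕ) (v : Fin D → E) (hv : Tri s v) :
    ∫ ξ, (∏ j, |Real.cos ⟪ξ, v j⟫|) ^ (2 * h) ∂(stdGaussian E) ≤
      (4 * (1 + 1 / s) / √(2 * h + 1)) ^ D := by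
  have h1 := sum_gauss_eq (fun p : Fin D × Fin (2 * h) => v p.1) 0
  have h2 := tri_bound h s hs D v hv 0
  have h3 : ∑ x : Fin D × Fin (2 * h) → Bool,
      Real.exp (-‖∑ p, sgn (x p) • v p.1 - 0‖ ^ 2 / 2) =
      ∑ x : Fin D → Fin (2 * h) → Bool,
        Real.exp (-‖∑ j, (∑ l, sgn (x j l)) • v j - 0‖ ^ 2 / 2) := by
    refine Fintype.sum_equiv (Equiv.curry _ _ _) _ _ fun x => ?_
    rw [Fintype.sum_prod_type]
    simp_rw [sum_smul]
    rfl
  rw [← h3, h1] at h2
  have h4 : ∀ ξ : E, Real.cos ⟪ξ, (0 : E)⟫ * ∏ p : Fin D × Fin (2 * h), Real.cos ⟪ξ, v p.1⟫ =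
      (∏ j, |Real.cos ⟪ξ, v j⟫|) ^ (2 * h) := by
    intro ξ
    rw [inner_zero_right, Real.cos_zero, one_mul, Fintype.prod_prod_type, ← prod_pow]
    refine prod_congr rfl fun j _ => ?_
    simp [pow_mul]
  simp_rw [h4] at h2
  rw [mul_pow, ← pow_mul] at h2
  simp only [Fintype.card_prod, Fintype.card_fin] at h2
  rw [mul_comm D] at h2
  exact le_of_mul_le_mul_left h2 (by positivity)

end Pool.Agent.MP_ece343_co
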