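import Mathlib
import Pool.Agent.MP_ece343_co.Fourier

set_option autoImplicit false

namespace Pool.Agent.MP_ece343_co

open Finset MeasureTheory ProbabilityTheory
open scoped RealInnerProductSpace

variable {E : Type*} [NormedAddCommGroup E] [InnerProductSpace ℝ E] [FiniteDimensional ℝ E]

lemma exists_normal (S : Submodule ℝ E) (v : E) (s : ℝ) (hs : 0 < s)
    (h : s < Metric.infDist v (S : Set E)) :
    ∃ e : E, ‖e‖ = 1 ∧ s ≤ ⟪v, e⟫ ∧ ∀ u ∈ S, ⟪u, e⟫ = 0 := by
  set p := S.starProjection v with hp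
  have hpS : p ∈ S := S.starProjection_apply_mem v
  have h1 : s < ‖v - p‖ := by
    have := Metric.infDist_le_dist_of_mem (x := v) (show p ∈ (S : Set E) from hpS)
    rw [dist_eq_norm] at this
    linarith
  have h2 : ∀ u ∈ S, ⟪u, v - p⟫ = 0 := by
    intro u hu
    rw [real_inner_comm]
    exact S.starProjection_inner_eq_zero v u hu
  have hn : 0 < ‖v - p‖ := by linarith
  refine ⟨‖v - p‖⁻¹ • (v - p), ?_, ?_, ?_⟩
  · rw [norm_smul, norm_inv, norm_norm, inv_mul_cancel₀ hn.ne']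
  · rw [real_inner_smul_right]
    have : ⟪v, v - p⟫ = ‖v - p‖ ^ 2 := by
      have h3 : ⟪v - p, v - p⟫ = ⟪v, v - p⟫ - ⟪p, v - p⟫ := inner_sub_left _ _ _
      rw [h2 p hpS, real_inner_self_eq_norm_sq] at h3
      linarith
    rw [this]
    have : ‖v - p‖⁻¹ * ‖v - p‖ ^ 2 = ‖v - p‖ := by field_simp
    linarith
  · intro u hu
    rw [real_inner_smul_right, h2 u hu, mul_zero]

lemma exists_tuple {ι : Type*} [Fintype ι] [DecidableEq ι] (a : ι → E) (s : ℝ) (hs : 0 < s)
    (K M : ℕ)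
    (H : ∀ S : Submodule ℝ E, Module.finrank ℝ S ≤ K →
      M ≤ {i | s < Metric.infDist (a i) (S : Set E)}.ncard)
    (U : Finset ι) (D : ℕ) (hD : D ≤ K + 1) (hU : U.card + D ≤ M) :
    ∃ φ : Fin D → ι, Function.Injective φ ∧ (∀ j, φ j ∉ U) ∧ Tri s (fun j => a (φ j)) := by
  induction D with
  | zero => exact ⟨Fin.elim0, fun j => j.elim0, fun j => j.elim0,
      Fin.elim0, fun j => j.elim0, fun j => j.elim0, fun j => j.elim0⟩
  | succ D ih =>
    obtain ⟨φ, hφ1, hφ2, e, he1, he2, he3⟩ := ih (by omega) (by omega)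
    set S := Submodule.span ℝ (Set.range fun j => a (φ j)) with hS
    have hSr : Module.finrank ℝ S ≤ K := by
      have := finrank_range_le_card (R := ℝ) (fun j => a (φ j))
      simp only [Fintype.card_fin] at this
      exact le_trans this (by omega)
    have h1 := H S hSr
    have h2 : ∃ i, s < Metric.infDist (a i) (S : Set E) ∧ i ∉ U ∪ univ.image φ := by
      by_contra hc
      push Not at hc
      have h3 : {i | s < Metric.infDist (a i) (S : Set E)} ⊆ ((U ∪ univ.image φ : Finset ι) : Set ι) :=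
        fun i hi => hc i hi
      have h4 := Set.ncard_le_ncard h3
      rw [Set.ncard_coe_finset] at h4
      have h5 : (U ∪ univ.image φ).card ≤ U.card + D := by
        refine le_trans (card_union_le _ _) ?_
        have : (univ.image φ).card ≤ D := by simpa using card_image_le (s := univ) (f := φ)
        omega
      omega
    obtain ⟨i, hi1, hi2⟩ := h2
    obtain ⟨e0, h01, h02, h03⟩ := exists_normal S (a i) s hs hi1
    simp only [mem_union, mem_image, mem_univ, true_and, not_or, not_exists] at hi2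
    refine ⟨Fin.cons i φ, ?_, ?_, Fin.cons e0 e, ?_, ?_, ?_⟩
    · rw [Fin.cons_injective_iff]
      exact ⟨fun ⟨j, hj⟩ => hi2.2 j hj, hφ1⟩
    · intro j
      refine Fin.cases ?_ (fun j => ?_) j
      · simpa using hi2.1
      · simpa using hφ2 j
    · intro j
      refine Fin.cases ?_ (fun j => ?_) j
      · simpa using h01
      · simpa using he1 j
    · intro j
      refine Fin.cases ?_ (fun j => ?_) j
      · simpa using h02
      · simpa using he2 j
    · intro k j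
      refine Fin.cases ?_ (fun k => ?_) k
      · intro h; exact absurd h (Fin.not_lt_zero j)
      · refine Fin.cases ?_ (fun j => ?_) j
        · intro _
          simp only [Fin.cons_succ, Fin.cons_zero]
          exact h03 _ (Submodule.subset_span ⟨k, rfl⟩)
        · intro h
          simp only [Fin.cons_succ]
          exact he3 k j (Fin.succ_lt_succ_iff.1 h)

lemma exists_tuples {ι : Type*} [Fintype ι] [DecidableEq ι] (a : ι → E) (s : ℝ) (hs : 0 < s)
    (K M : ℕ)
    (H : ∀ S : Submodule ℝ E, Module.finrank ℝ S ≤ K →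
      M ≤ {i | s < Metric.infDist (a i) (S : Set E)}.ncard)
    (m : ℕ) (hm : m * (K + 1) ≤ M) :
    ∃ U : Finset ι, U.card ≤ m * (K + 1) ∧ ∃ φ : Fin m → Fin (K + 1) → ι,
      (∀ t, Tri s (fun j => a (φ t j))) ∧
      ∀ f : ι → ℝ, ∏ i ∈ U, f i = ∏ t, ∏ j, f (φ t j) := by
  induction m with
  | zero => exact ⟨∅, by simp, Fin.elim0, fun t => t.elim0, fun f => by simp⟩
  | succ m ih =>
    obtain ⟨U, hU, φ, hφ1, hφ2⟩ := ih (by nlinarith)
    obtain ⟨ψ, hψ1, hψ2, hψ3⟩ := exists_tuple a s hs K M H U (K + 1) le_rfl (by nlinarith)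
    refine ⟨univ.image ψ ∪ U, ?_, Fin.cons ψ φ, ?_, ?_⟩
    · refine le_trans (card_union_le _ _) ?_
      have : (univ.image ψ).card ≤ K + 1 := by simpa using card_image_le (s := univ) (f := ψ)
      nlinarith
    · intro t
      refine Fin.cases ?_ (fun t => ?_) t
      · simpa using hψ3
      · simpa using hφ1 t
    · intro f
      rw [prod_union, prod_image (fun x _ y _ h => hψ1 h), hφ2,
        Fin.prod_univ_succ (n := m)]
      · simp
      · rw [disjoint_left]
        intro i hi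
        obtain ⟨j, _, rfl⟩ := mem_image.1 hi
        exact hψ2 j

variable [MeasurableSpace E] [BorelSpace E]

lemma halasz {ι : Type*} [Fintype ι] [DecidableEq ι] (a : ι → E) (s : ℝ) (hs : 0 < s)
    (K M : ℕ)
    (H : ∀ S : Submodule ℝ E, Module.finrank ℝ S ≤ K →
      M ≤ {i | s < Metric.infDist (a i) (S : Set E)}.ncard)
    (h : ℕ) (hh : 0 < h) (hm : 2 * h * (K + 1) ≤ M) (y : E) :
    ∑ x : ι → Bool, Real.exp (-‖∑ i, sgn (x i) • a i - y‖ ^ 2 / 2) ≤
      2 ^ Fintype.card ι * (2 * h * (4 * (1 + 1 / s) / √(2 * h + 1)) ^ (K + 1)) := by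
  rw [sum_gauss_eq]
  refine mul_le_mul_of_nonneg_left ?_ (by positivity)
  obtain ⟨U, -, φ, hφ1, hφ2⟩ := exists_tuples a s hs K M H (2 * h) hm
  have hF1 : ∀ (t : Fin (2 * h)) (ξ : E), |(∏ j, |Real.cos ⟪ξ, a (φ t j)⟫|) ^ (2 * h)| ≤ 1 := by
    intro t ξ
    rw [abs_of_nonneg (by positivity)]
    exact pow_le_one₀ (by positivity)
      (prod_le_one (fun _ _ => abs_nonneg _) fun _ _ => Real.abs_cos_le_one _)
  have hpt : ∀ ξ : E, Real.cos ⟪ξ, y⟫ * ∏ i, Real.cos ⟪ξ, a i⟫ ≤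
      ∑ t : Fin (2 * h), (∏ j, |Real.cos ⟪ξ, a (φ t j)⟫|) ^ (2 * h) := by
    intro ξ
    have h1 : Real.cos ⟪ξ, y⟫ * ∏ i, Real.cos ⟪ξ, a i⟫ ≤ ∏ i, |Real.cos ⟪ξ, a i⟫| := by
      refine le_trans (le_abs_self _) ?_
      rw [abs_mul, abs_prod]
      exact mul_le_of_le_one_left (by positivity) (Real.abs_cos_le_one _)
    have h2 : ∏ i, |Real.cos ⟪ξ, a i⟫| ≤ ∏ i ∈ U, |Real.cos ⟪ξ, a i⟫| :=
      prod_le_prod_of_subset_of_le_one (subset_univ U) (fun _ _ => abs_nonneg _)
        fun _ _ _ => Real.abs_cos_le_one _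
    rw [hφ2] at h2
    have : Nonempty (Fin (2 * h)) := ⟨⟨0, by omega⟩⟩
    obtain ⟨t0, -, ht0⟩ := exists_max_image (univ : Finset (Fin (2 * h)))
      (fun t => ∏ j, |Real.cos ⟪ξ, a (φ t j)⟫|) univ_nonempty
    have h3 : ∏ t, ∏ j, |Real.cos ⟪ξ, a (φ t j)⟫| ≤ (∏ j, |Real.cos ⟪ξ, a (φ t0 j)⟫|) ^ (2 * h) := by
      calc _ ≤ ∏ _t : Fin (2 * h), ∏ j, |Real.cos ⟪ξ, a (φ t0 j)⟫| :=
            prod_le_prod (fun _ _ => by positivity) fun t ht => ht0 t ht
        _ = _ := by simp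
    have h4 := single_le_sum (f := fun t : Fin (2 * h) => (∏ j, |Real.cos ⟪ξ, a (φ t j)⟫|) ^ (2 * h))
      (fun _ _ => by positivity) (mem_univ t0)
    linarith
  have hint : ∀ t : Fin (2 * h),
      Integrable (fun ξ : E => (∏ j, |Real.cos ⟪ξ, a (φ t j)⟫|) ^ (2 * h)) (stdGaussian E) :=
    fun t => integrable_bdd _ (by fun_prop) (hF1 t)
  calc _ ≤ ∫ ξ, ∑ t : Fin (2 * h), (∏ j, |Real.cos ⟪ξ, a (φ t j)⟫|) ^ (2 * h) ∂(stdGaussian E) := by
        refine integral_mono ?_ (integrable_finsetSum _ fun t _ => hint t) hpt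
        refine integrable_bdd _ (by fun_prop) fun ξ => ?_
        rw [abs_mul, abs_prod]
        exact mul_le_one₀ (Real.abs_cos_le_one _) (by positivity)
          (prod_le_one (fun _ _ => abs_nonneg _) fun _ _ => Real.abs_cos_le_one _)
    _ = ∑ t : Fin (2 * h), ∫ ξ, (∏ j, |Real.cos ⟪ξ, a (φ t j)⟫|) ^ (2 * h) ∂(stdGaussian E) :=
        integral_finsetSum _ fun t _ => hint t
    _ ≤ ∑ _t : Fin (2 * h), (4 * (1 + 1 / s) / √(2 * h + 1)) ^ (K + 1) :=
        sum_le_sum fun t _ => tri_integral h s hs (K + 1) _ (hφ1 t)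
    _ = _ := by simp

end Pool.Agent.MP_ece343_co
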