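import Mathlib
import Pool.Agent.MP_ece343_co.Greedy

set_option autoImplicit false

namespace Pool.Agent.MP_ece343_co

open Finset MeasureTheory ProbabilityTheory
open scoped RealInnerProductSpace Pointwise

variable {E : Type*} [NormedAddCommGroup E] [InnerProductSpace ℝ E] [FiniteDimensional ℝ E]

omit [FiniteDimensional ℝ E] in
lemma infDist_smul_submodule (S : Submodule ℝ E) (c : ℝ) (hc : 0 < c) (v : E) :
    Metric.infDist (c • v) (S : Set E) = c * Metric.infDist v (S : Set E) := by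
  have h1 : c • (S : Set E) = (S : Set E) := by
    ext u
    rw [Set.mem_smul_set_iff_inv_smul_mem₀ hc.ne']
    exact S.smul_mem_iff (inv_ne_zero hc.ne')
  have h2 := infDist_smul₀ hc.ne' (S : Set E) v
  rw [h1, Real.norm_eq_abs, abs_of_pos hc] at h2
  exact h2

variable [MeasurableSpace E] [BorelSpace E]

lemma small_ball {n : ℕ} (a : Fin n → E) (r δ : ℝ) (hr : 0 < r) (hδ : 0 < δ) (K M : ℕ)
    (H : ∀ S : Submodule ℝ E, Module.finrank ℝ S ≤ K →
      M ≤ {i | δ < Metric.infDist (a i) (S : Set E)}.ncard)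
    (h : ℕ) (hh : 0 < h) (hm : 2 * h * (K + 1) ≤ M) (y : E) :
    ({x : Fin n → Bool | ∑ i, sgn (x i) • a i ∈ Metric.closedBall y r}.ncard : ℝ) / 2 ^ n ≤
      2 * (2 * h * (4 * (1 + r / δ) / √(2 * h + 1)) ^ (K + 1)) := by
  classical
  have H' : ∀ S : Submodule ℝ E, Module.finrank ℝ S ≤ K →
      M ≤ {i | δ / r < Metric.infDist (r⁻¹ • a i) (S : Set E)}.ncard := by
    intro S hS
    refine le_trans (H S hS) (le_of_eq ?_)
    congr 1
    ext i
    simp only [Set.mem_ofPred_eq]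
    rw [infDist_smul_submodule S _ (inv_pos.2 hr), div_eq_inv_mul,
      mul_lt_mul_iff_right₀ (inv_pos.2 hr)]
  have h1 := halasz (fun i => r⁻¹ • a i) (δ / r) (by positivity) K M H' h hh hm (r⁻¹ • y)
  rw [one_div_div, Fintype.card_fin] at h1
  rw [div_le_iff₀ (by positivity)]
  have h2 : ({x : Fin n → Bool | ∑ i, sgn (x i) • a i ∈ Metric.closedBall y r}.ncard : ℝ) ≤
      2 * ∑ x : Fin n → Bool,
        Real.exp (-‖∑ i, sgn (x i) • r⁻¹ • a i - r⁻¹ • y‖ ^ 2 / 2) := by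
    have e1 : {x : Fin n → Bool | ∑ i, sgn (x i) • a i ∈ Metric.closedBall y r} =
        ((univ.filter fun x : Fin n → Bool => ∑ i, sgn (x i) • a i ∈ Metric.closedBall y r :
          Finset _) : Set _) := by
      ext x; simp
    rw [e1, Set.ncard_coe_finset, card_filter, mul_sum]
    push_cast
    refine sum_le_sum fun x _ => ?_
    split_ifs with hx
    · have e2 : ∑ i, sgn (x i) • r⁻¹ • a i - r⁻¹ • y = r⁻¹ • (∑ i, sgn (x i) • a i - y) := by
        rw [smul_sub, smul_sum]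
        simp_rw [smul_comm (r⁻¹)]
      rw [Metric.mem_closedBall, dist_eq_norm] at hx
      have e3 : ‖∑ i, sgn (x i) • r⁻¹ • a i - r⁻¹ • y‖ ≤ 1 := by
        rw [e2, norm_smul, norm_inv, Real.norm_eq_abs, abs_of_pos hr, inv_mul_le_iff₀ hr]
        linarith
      have e4 : ‖∑ i, sgn (x i) • r⁻¹ • a i - r⁻¹ • y‖ ^ 2 ≤ 1 :=
        pow_le_one₀ (norm_nonneg _) e3
      have := Real.add_one_le_exp (-‖∑ i, sgn (x i) • r⁻¹ • a i - r⁻¹ • y‖ ^ 2 / 2)
      linarith
    · positivity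
  have h3 : (0 : ℝ) < 2 ^ n := by positivity
  nlinarith [h1, h2]

lemma numeric (ε C : ℝ) (hε : 0 < ε) (hε1 : ε < 1) (hC : 0 < C) :
    ∃ K N : ℕ, ∀ n : ℕ, N ≤ n → ∃ h : ℕ, 0 < h ∧ ((2 * h * (K + 1) : ℕ) : ℝ) ≤ (n : ℝ) ^ ε ∧
      2 * (2 * h * (4 * (1 + (1 / √n) / (n : ℝ) ^ (-ε)) / √(2 * h + 1)) ^ (K + 1)) <
        (n : ℝ) ^ (-C) := by
  set η := min ε (1 - ε) / 2 with hη
  have hη0 : 0 < η := by
    have : 0 < min ε (1 - ε) := lt_min hε (by linarith)
    positivity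
  have hη1 : η ≤ ε / 2 := by have := min_le_left ε (1 - ε); linarith
  have hη2 : η ≤ (1 - ε) / 2 := by have := min_le_right ε (1 - ε); linarith
  obtain ⟨K, hK⟩ := exists_nat_ge ((C + 2) / η)
  have hK' : C + 2 ≤ η * (K + 1 : ℕ) := by
    rw [div_le_iff₀ hη0] at hK
    push_cast; nlinarith
  set D : ℝ := ((K + 1 : ℕ) : ℝ) with hD
  have hD0 : 0 < D := by positivity
  set A : ℝ := 8 * √(2 * D) with hA
  have hlim : ∀ᶠ n : ℕ in Filter.atTop, 2 * D ≤ (n : ℝ) ^ ε :=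
    ((tendsto_rpow_atTop hε).comp tendsto_natCast_atTop_atTop).eventually_ge_atTop _
  have hlim2 : ∀ᶠ n : ℕ in Filter.atTop, 2 * A ^ (K + 1) < (n : ℝ) :=
    tendsto_natCast_atTop_atTop.eventually_gt_atTop _
  have hlim3 : ∀ᶠ n : ℕ in Filter.atTop, 1 ≤ n := Filter.eventually_ge_atTop 1
  obtain ⟨N, hN⟩ := Filter.eventually_atTop.1 (hlim.and (hlim2.and hlim3))
  refine ⟨K, N, fun n hn => ?_⟩
  obtain ⟨h1, h2, h3⟩ := hN n hn
  set x : ℝ := (n : ℝ) with hx
  have hx1 : 1 ≤ x := by rw [hx]; exact_mod_cast h3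
  have hx0 : 0 < x := by linarith
  set h := ⌊x ^ ε / (2 * D)⌋₊ with hh
  have hq1 : 1 ≤ x ^ ε / (2 * D) := by rw [le_div_iff₀ (by positivity)]; linarith
  have hh0 : 0 < h := Nat.floor_pos.2 hq1
  have hh1 : (h : ℝ) ≤ x ^ ε / (2 * D) := Nat.floor_le (by positivity)
  have hh2 : x ^ ε / (2 * D) < h + 1 := Nat.lt_floor_add_one _
  have hh3 : 2 * h * D ≤ x ^ ε := by
    rw [le_div_iff₀ (by positivity)] at hh1; linarith
  refine ⟨h, hh0, by rw [hD] at hh3; push_cast at hh3 ⊢; linarith, ?_⟩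
  have hD1 : 1 ≤ D := by rw [hD]; exact_mod_cast Nat.le_add_left 1 K
  have hxe : x ^ ε ≤ x := by
    calc x ^ ε ≤ x ^ (1 : ℝ) := Real.rpow_le_rpow_of_exponent_le hx1 hε1.le
      _ = x := Real.rpow_one x
  have hh4 : 2 * (h : ℝ) ≤ x := by
    have : (0 : ℝ) ≤ h := by positivity
    nlinarith
  have hsq : x ^ (ε / 2) / √(2 * D) ≤ √(2 * h + 1) := by
    have e1 : x ^ (ε / 2) = √(x ^ ε) := by
      rw [Real.sqrt_eq_rpow, ← Real.rpow_mul hx0.le]; congr 1; ring
    rw [e1, ← Real.sqrt_div (by positivity)]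
    apply Real.sqrt_le_sqrt
    have : (0 : ℝ) ≤ h := by positivity
    linarith
  have hrat : (1 / √x) / x ^ (-ε) = x ^ (ε - 1 / 2) := by
    rw [Real.sqrt_eq_rpow, Real.rpow_neg hx0.le, Real.rpow_sub hx0]
    field_simp
  have hB : 4 * (1 + (1 / √x) / x ^ (-ε)) / √(2 * h + 1) ≤ A * x ^ (-η) := by
    rw [hrat]
    have e1 : x ^ (-(ε / 2)) ≤ x ^ (-η) := Real.rpow_le_rpow_of_exponent_le hx1 (by linarith)
    have e2 : x ^ (ε - 1 / 2) * x ^ (-(ε / 2)) ≤ x ^ (-η) := by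
      rw [← Real.rpow_add hx0]
      exact Real.rpow_le_rpow_of_exponent_le hx1 (by linarith)
    have e3 : 0 < x ^ (ε / 2) := by positivity
    have e4 : 0 < √(2 * D) := by positivity
    calc _ ≤ 4 * (1 + x ^ (ε - 1 / 2)) / (x ^ (ε / 2) / √(2 * D)) := by gcongr
      _ = 4 * √(2 * D) * (x ^ (-(ε / 2)) + x ^ (ε - 1 / 2) * x ^ (-(ε / 2))) := by
          rw [Real.rpow_neg hx0.le]; field_simp
      _ ≤ 4 * √(2 * D) * (2 * x ^ (-η)) := by gcongr; linarith
      _ = _ := by rw [hA]; ring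
  have hB2 : (4 * (1 + (1 / √x) / x ^ (-ε)) / √(2 * h + 1)) ^ (K + 1) ≤
      A ^ (K + 1) * x ^ (-(C + 2)) := by
    calc _ ≤ (A * x ^ (-η)) ^ (K + 1) := by gcongr
      _ = A ^ (K + 1) * x ^ (-η * D) := by
          rw [mul_pow, ← Real.rpow_natCast (x ^ (-η)), ← Real.rpow_mul hx0.le]
      _ ≤ _ := by
          gcongr
          linarith
  have e5 : x ^ (-C) = x * x * x ^ (-(C + 2)) := by
    have : x ^ (-C) = x ^ (2 : ℝ) * x ^ (-(C + 2)) := by
      rw [← Real.rpow_add hx0]; congr 1; ring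
    rw [this, Real.rpow_two]; ring
  have e6 : 0 < x ^ (-(C + 2)) := by positivity
  have hA0 : 0 < A ^ (K + 1) := by positivity
  calc _ ≤ 2 * (x * (A ^ (K + 1) * x ^ (-(C + 2)))) := by gcongr
    _ = (2 * A ^ (K + 1)) * (x * x ^ (-(C + 2))) := by ring
    _ < x * (x * x ^ (-(C + 2))) := by gcongr
    _ = _ := by rw [e5]; ring

theorem inverse_LO (ε : ℝ) (hε : 0 < ε) (hε1 : ε < 1) (C : ℝ) (hC : 0 < C) :
    ∃ K : ℕ, ∀ (n d : ℕ), 2 ≤ n →
      ∀ (c : EuclideanSpace ℝ (Fin d)) (a : Fin n → EuclideanSpace ℝ (Fin d)),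
        (n : ℝ) ^ (-C) ≤
          ({x : Fin n → Bool | ∑ i, (if x i then (1 : ℝ) else -1) • a i ∈
            Metric.closedBall c (1 / √n)}.ncard : ℝ) / 2 ^ n →
        ∃ S : Submodule ℝ (EuclideanSpace ℝ (Fin d)), Module.finrank ℝ S ≤ K ∧
          ({i : Fin n | (n : ℝ) ^ (-ε) < Metric.infDist (a i) S}.ncard : ℝ) ≤ (n : ℝ) ^ ε := by
  obtain ⟨K, N, hKN⟩ := numeric ε C hε hε1 hC
  refine ⟨K + N, fun n d hn c a hp => ?_⟩
  have hn0 : (0 : ℝ) < n := by positivity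
  by_cases hnN : N ≤ n
  · by_contra hcon
    push Not at hcon
    obtain ⟨h, hh0, hh1, hh2⟩ := hKN n hnN
    have := small_ball a (1 / √n) ((n : ℝ) ^ (-ε)) (by positivity) (by positivity) K
      (2 * h * (K + 1)) (fun S hS => by
        have := hcon S (by omega)
        exact_mod_cast (lt_of_le_of_lt hh1 this).le) h hh0 le_rfl c
    unfold sgn at this
    linarith
  · refine ⟨Submodule.span ℝ (Set.range a), ?_, ?_⟩
    · have := finrank_range_le_card (R := ℝ) a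
      simp only [Fintype.card_fin] at this
      exact le_trans this (by omega)
    · have : {i : Fin n | (n : ℝ) ^ (-ε) <
          Metric.infDist (a i) (Submodule.span ℝ (Set.range a))} = ∅ := by
        ext i
        have h1 : Metric.infDist (a i) (Submodule.span ℝ (Set.range a)) = 0 :=
          Metric.infDist_zero_of_mem (Submodule.subset_span ⟨i, rfl⟩)
        have h2 : 0 < (n : ℝ) ^ (-ε) := by positivity
        simp [h1, h2.le]
      rw [this]
      simp only [Set.ncard_empty, Nat.cast_zero]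
      positivity

end Pool.Agent.MP_ece343_co
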